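import Pool.Agent.Helper82.BR.St3

set_option autoImplicit false

namespace Pool.Agent.Helper24.BR

open Pool.Agent.Helper82.BR
open scoped ComplexConjugate

private theorem dist_iff (s : ℂ) (x y : ℝ) (hxy : x < y) :
    dist s (x : ℂ) = dist s (y : ℂ) ↔ s.re = (x + y) / 2 := by
  rw [Complex.dist_eq_re_im, Complex.dist_eq_re_im]
  simp only [Complex.ofReal_re, Complex.ofReal_im, sub_zero]
  rw [Real.sqrt_inj (by positivity) (by positivity)]
  constructor
  · intro h
    have h1 : (y - x) * (2 * s.re - x - y) = 0 := by nlinarith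
    rcases mul_eq_zero.1 h1 with h2 | h2
    · linarith
    · linarith
  · intro h
    rw [h]
    ring

private theorem line (S : Finset ℂ) (hR : Rich S) (x y : ℝ) (hxy : x < y) (hx : (x : ℂ) ∈ S)
    (hy : (y : ℂ) ∈ S) : 2 ≤ (S.filter (fun s => s.re = (x + y) / 2)).card := by
  classical
  have hne : (x : ℂ) ≠ (y : ℂ) := by
    intro h
    have := Complex.ofReal_injective h
    linarith
  have h := hR _ hx _ hy hne
  rw [Finset.filter_congr (q := fun s => s.re = (x + y) / 2)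
    (fun s _ => dist_iff s x y hxy)] at h
  exact h

private theorem lemB (hLIN : StLIN) (S : Finset ℂ) (hR : Rich S) (h8 : S.card = 8)
    (x1 x2 x3 : ℝ) (h12 : x1 < x2) (h23 : x2 < x3) (m1 : (x1 : ℂ) ∈ S) (m2 : (x2 : ℂ) ∈ S)
    (m3 : (x3 : ℂ) ∈ S) :
    x2 = (x1 + x3) / 2 ∧
    (S.filter (fun s => s.re = (x1 + x2) / 2 ∧ s.im ≠ 0)).card = 2 ∧
    (S.filter (fun s => s.re = (x1 + x3) / 2 ∧ s.im ≠ 0)).card = 1 ∧
    (S.filter (fun s => s.re = (x2 + x3) / 2 ∧ s.im ≠ 0)).card = 2 ∧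
    (∀ s ∈ S, s.im ≠ 0 → s.re = (x1 + x2) / 2 ∨ s.re = (x1 + x3) / 2 ∨ s.re = (x2 + x3) / 2) ∧
    (∀ s ∈ S, s.im = 0 → s.re = x1 ∨ s.re = x2 ∨ s.re = x3) := by
  classical
  have hRc : (S.filter (fun s => s.im = 0)).card ≤ 3 := by
    have := hLIN S hR (by omega)
    omega
  have n12 : (x1 : ℂ) ≠ x2 := fun h => by
    have := Complex.ofReal_injective h
    linarith
  have n13 : (x1 : ℂ) ≠ x3 := fun h => by
    have := Complex.ofReal_injective h
    linarith
  have n23 : (x2 : ℂ) ≠ x3 := fun h => by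
    have := Complex.ofReal_injective h
    linarith
  have hc3 : ({(x1 : ℂ), (x2 : ℂ), (x3 : ℂ)} : Finset ℂ).card = 3 :=
    Finset.card_eq_three.2 ⟨_, _, _, n12, n13, n23, rfl⟩
  have hsub : ({(x1 : ℂ), (x2 : ℂ), (x3 : ℂ)} : Finset ℂ) ⊆ S.filter (fun s => s.im = 0) := by
    intro s hs
    simp only [Finset.mem_insert, Finset.mem_singleton] at hs
    rw [Finset.mem_filter]
    rcases hs with rfl | rfl | rfl
    · exact ⟨m1, Complex.ofReal_im _⟩
    · exact ⟨m2, Complex.ofReal_im _⟩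
    · exact ⟨m3, Complex.ofReal_im _⟩
  have hReq := Finset.eq_of_subset_of_card_le hsub (by rw [hc3]; exact hRc)
  have hreal : ∀ s ∈ S, s.im = 0 → s.re = x1 ∨ s.re = x2 ∨ s.re = x3 := by
    intro s hs h0
    have h1 : s ∈ ({(x1 : ℂ), (x2 : ℂ), (x3 : ℂ)} : Finset ℂ) := by
      rw [hReq, Finset.mem_filter]
      exact ⟨hs, h0⟩
    simp only [Finset.mem_insert, Finset.mem_singleton] at h1
    rcases h1 with rfl | rfl | rfl
    · exact Or.inl (Complex.ofReal_re _)
    · exact Or.inr (Or.inl (Complex.ofReal_re _))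
    · exact Or.inr (Or.inr (Complex.ofReal_re _))
  have hNR : (S.filter (fun s => ¬ s.im = 0)).card = 5 := by
    have h1 := Finset.card_filter_add_card_filter_not (s := S) (fun s : ℂ => s.im = 0)
    have h2 : (S.filter (fun s => s.im = 0)).card = 3 := by rw [← hReq]; exact hc3
    omega
  obtain ⟨V1, hV1⟩ : ∃ V, V = S.filter (fun s => s.re = (x1 + x2) / 2 ∧ s.im ≠ 0) := ⟨_, rfl⟩
  obtain ⟨V2, hV2⟩ : ∃ V, V = S.filter (fun s => s.re = (x1 + x3) / 2 ∧ s.im ≠ 0) := ⟨_, rfl⟩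
  obtain ⟨V3, hV3⟩ : ∃ V, V = S.filter (fun s => s.re = (x2 + x3) / 2 ∧ s.im ≠ 0) := ⟨_, rfl⟩
  rw [← hV1, ← hV2, ← hV3]
  have c1 : 2 ≤ V1.card := by
    have h := line S hR x1 x2 h12 m1 m2
    have e : S.filter (fun s => s.re = (x1 + x2) / 2) = V1 := by
      rw [hV1]
      refine Finset.filter_congr fun s hs => ⟨fun h1 => ⟨h1, fun h0 => ?_⟩, fun h1 => h1.1⟩
      rcases hreal s hs h0 with h2 | h2 | h2 <;> linarith
    rwa [e] at h
  have c3 : 2 ≤ V3.card := by
    have h := line S hR x2 x3 h23 m2 m3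
    have e : S.filter (fun s => s.re = (x2 + x3) / 2) = V3 := by
      rw [hV3]
      refine Finset.filter_congr fun s hs => ⟨fun h1 => ⟨h1, fun h0 => ?_⟩, fun h1 => h1.1⟩
      rcases hreal s hs h0 with h2 | h2 | h2 <;> linarith
    rwa [e] at h
  have h := line S hR x1 x3 (h12.trans h23) m1 m3
  have c2 : 1 ≤ V2.card ∧ (x2 ≠ (x1 + x3) / 2 → 2 ≤ V2.card) := by
    constructor
    · have e : S.filter (fun s => s.re = (x1 + x3) / 2) ⊆ insert (x2 : ℂ) V2 := by
        intro s hs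
        rw [Finset.mem_filter] at hs
        rw [Finset.mem_insert, hV2, Finset.mem_filter]
        by_cases h0 : s.im = 0
        · left
          rcases hreal s hs.1 h0 with h2 | h2 | h2
          · linarith
          · apply Complex.ext
            · rw [Complex.ofReal_re]; exact h2
            · rw [Complex.ofReal_im]; exact h0
          · linarith
        · exact Or.inr ⟨hs.1, hs.2, h0⟩
      have h1 := Finset.card_le_card e
      have h2 := Finset.card_insert_le (x2 : ℂ) V2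
      omega
    · intro hne
      have e : S.filter (fun s => s.re = (x1 + x3) / 2) = V2 := by
        rw [hV2]
        refine Finset.filter_congr fun s hs => ⟨fun h1 => ⟨h1, fun h0 => ?_⟩, fun h1 => h1.1⟩
        rcases hreal s hs h0 with h2 | h2 | h2
        · linarith
        · exact hne (by linarith)
        · linarith
      rwa [e] at h
  have d12 : Disjoint V1 V2 := by
    rw [Finset.disjoint_left]
    intro s h1 h2
    rw [hV1, Finset.mem_filter] at h1
    rw [hV2, Finset.mem_filter] at h2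
    have := h1.2.1
    have := h2.2.1
    linarith
  have d3 : Disjoint (V1 ∪ V2) V3 := by
    rw [Finset.disjoint_left]
    intro s h1 h2
    rw [hV3, Finset.mem_filter] at h2
    rw [Finset.mem_union, hV1, hV2, Finset.mem_filter, Finset.mem_filter] at h1
    have := h2.2.1
    rcases h1 with h1 | h1
    · have := h1.2.1
      linarith
    · have := h1.2.1
      linarith
  have hcU : (V1 ∪ V2 ∪ V3).card = V1.card + V2.card + V3.card := by
    rw [Finset.card_union_of_disjoint d3, Finset.card_union_of_disjoint d12]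
  have hU : V1 ∪ V2 ∪ V3 ⊆ S.filter (fun s => ¬ s.im = 0) := by
    intro s hs
    rw [Finset.mem_union, Finset.mem_union, hV1, hV2, hV3, Finset.mem_filter, Finset.mem_filter,
      Finset.mem_filter] at hs
    rw [Finset.mem_filter]
    rcases hs with (h1 | h1) | h1
    · exact ⟨h1.1, h1.2.2⟩
    · exact ⟨h1.1, h1.2.2⟩
    · exact ⟨h1.1, h1.2.2⟩
  have hle := Finset.card_le_card hU
  rw [hcU, hNR] at hle
  have hx2 : x2 = (x1 + x3) / 2 := by
    by_contra hne
    have := c2.2 hne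
    omega
  have hUeq := Finset.eq_of_subset_of_card_le hU (by rw [hcU, hNR]; omega)
  refine ⟨hx2, by omega, by omega, by omega, ?_, hreal⟩
  intro s hs h0
  have h1 : s ∈ V1 ∪ V2 ∪ V3 := by
    rw [hUeq, Finset.mem_filter]
    exact ⟨hs, h0⟩
  rw [Finset.mem_union, Finset.mem_union, hV1, hV2, hV3, Finset.mem_filter, Finset.mem_filter,
      Finset.mem_filter] at h1
  rcases h1 with (h1 | h1) | h1
  · exact Or.inl h1.2.1
  · exact Or.inr (Or.inl h1.2.1)
  · exact Or.inr (Or.inr h1.2.1)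

private theorem sort3 (P : ℝ → Prop) (a b c : ℝ) (ha : P a) (hb : P b) (hc : P c) (hab : a ≠ b)
    (hac : a ≠ c) (hbc : b ≠ c) : ∃ x y z, x < y ∧ y < z ∧ P x ∧ P y ∧ P z := by
  rcases lt_or_gt_of_ne hab with h1 | h1 <;> rcases lt_or_gt_of_ne hac with h2 | h2 <;>
    rcases lt_or_gt_of_ne hbc with h3 | h3
  · exact ⟨a, b, c, h1, h3, ha, hb, hc⟩
  · exact ⟨a, c, b, h2, h3, ha, hc, hb⟩
  · linarith
  · exact ⟨c, a, b, h2, h1, hc, ha, hb⟩
  · exact ⟨b, a, c, h1, h2, hb, ha, hc⟩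
  · linarith
  · exact ⟨b, c, a, h3, h2, hb, hc, ha⟩
  · exact ⟨c, b, a, h3, h1, hc, hb, ha⟩

private theorem img_card (S : Finset ℂ) (a c : ℂ) (ha : a ≠ 0) :
    (S.image (fun z => a * (z - c))).card = S.card := by
  classical
  apply Finset.card_image_of_injective
  intro x y h
  have h1 : x - c = y - c := mul_left_cancel₀ ha h
  linear_combination h1

theorem hNA1 (hLIN : StLIN) (hSIM : StSIM) : StNA1 := by
  classical
  intro S hR h8 hcol
  obtain ⟨x, hx, y, hy, z, hz, hxy, hxz, hyz, him⟩ := hcol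
  have ha : conj (y - z) ≠ 0 := by
    intro h
    have h1 : y - z = 0 := (map_eq_zero _).1 h
    exact hyz (sub_eq_zero.1 h1)
  obtain ⟨S1, hS1⟩ : ∃ S1, S1 = S.image (fun w => conj (y - z) * (w - z)) := ⟨_, rfl⟩
  have hR1 : Rich S1 := by rw [hS1]; exact hSIM S _ _ ha hR
  have h81 : S1.card = 8 := by rw [hS1, img_card S _ _ ha, h8]
  have hmem : ∀ w ∈ S, conj (y - z) * (w - z) ∈ S1 := by
    intro w hw
    rw [hS1]
    exact Finset.mem_image_of_mem _ hw
  have e1 : ((((y - z) * conj (y - z)).re : ℝ) : ℂ) = conj (y - z) * (y - z) := by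
    rw [Complex.mul_conj, mul_comm, Complex.mul_conj]
    simp
  have e2 : ((((x - z) * conj (y - z)).re : ℝ) : ℂ) = conj (y - z) * (x - z) := by
    rw [mul_comm (conj (y - z))]
    apply Complex.ext
    · rw [Complex.ofReal_re]
    · rw [Complex.ofReal_im, him]
  have p0 : ((0 : ℝ) : ℂ) ∈ S1 := by
    have := hmem z hz
    rw [sub_self, mul_zero] at this
    simpa using this
  have p1 : ((((y - z) * conj (y - z)).re : ℝ) : ℂ) ∈ S1 := by
    rw [e1]; exact hmem y hy
  have p2 : ((((x - z) * conj (y - z)).re : ℝ) : ℂ) ∈ S1 := by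
    rw [e2]; exact hmem x hx
  obtain ⟨a, hae⟩ : ∃ a, a = ((x - z) * conj (y - z)).re := ⟨_, rfl⟩
  obtain ⟨b, hbe⟩ : ∃ b, b = ((y - z) * conj (y - z)).re := ⟨_, rfl⟩
  rw [← hae] at p2 e2
  rw [← hbe] at p1 e1
  have q1 : (0 : ℝ) ≠ b := by
    intro h
    rw [← h] at e1
    have h1 : conj (y - z) * (y - z) = 0 := by rw [← e1]; simp
    rcases mul_eq_zero.1 h1 with h2 | h2
    · exact ha h2
    · exact hyz (sub_eq_zero.1 h2)
  have q2 : (0 : ℝ) ≠ a := by
    intro h
    rw [← h] at e2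
    have h1 : conj (y - z) * (x - z) = 0 := by rw [← e2]; simp
    rcases mul_eq_zero.1 h1 with h2 | h2
    · exact ha h2
    · exact hxz (sub_eq_zero.1 h2)
  have q3 : b ≠ a := by
    intro h
    rw [h, e2] at e1
    have h1 := mul_left_cancel₀ ha e1
    exact hxy (by linear_combination h1)
  obtain ⟨x1, x2, x3, h12, h23, m1, m2, m3⟩ :=
    sort3 (fun t => (t : ℂ) ∈ S1) 0 b a p0 p1 p2 q1 q2 q3
  have hB1 := (lemB hLIN S1 hR1 h81 x1 x2 x3 h12 h23 m1 m2 m3).1
  have hd : (0 : ℝ) < x3 - x2 := by linarith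
  have hdc : (((x3 - x2 : ℝ) : ℂ))⁻¹ ≠ 0 := by
    apply inv_ne_zero
    intro h
    have := Complex.ofReal_eq_zero.1 h
    linarith
  obtain ⟨T, hT⟩ : ∃ T, T = S1.image (fun w => (((x3 - x2 : ℝ) : ℂ))⁻¹ * (w - (x2 : ℂ))) :=
    ⟨_, rfl⟩
  have hRT : Rich T := by rw [hT]; exact hSIM S1 _ _ hdc hR1
  have h8T : T.card = 8 := by rw [hT, img_card S1 _ _ hdc, h81]
  have hmemT : ∀ w ∈ S1, (((x3 - x2 : ℝ) : ℂ))⁻¹ * (w - (x2 : ℂ)) ∈ T := by
    intro w hw
    rw [hT]
    exact Finset.mem_image_of_mem _ hw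
  have t1 : ((-1 : ℝ) : ℂ) ∈ T := by
    have h := hmemT _ m1
    have e : (((x3 - x2 : ℝ) : ℂ))⁻¹ * ((x1 : ℂ) - (x2 : ℂ)) = ((-1 : ℝ) : ℂ) := by
      rw [← Complex.ofReal_sub, ← Complex.ofReal_inv, ← Complex.ofReal_mul]
      congr 1
      rw [inv_mul_eq_div, div_eq_iff hd.ne']
      linarith
    rwa [e] at h
  have t2 : ((0 : ℝ) : ℂ) ∈ T := by
    have h := hmemT _ m2
    rw [sub_self, mul_zero] at h
    simpa using h
  have t3 : ((1 : ℝ) : ℂ) ∈ T := by
    have h := hmemT _ m3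
    have e : (((x3 - x2 : ℝ) : ℂ))⁻¹ * ((x3 : ℂ) - (x2 : ℂ)) = ((1 : ℝ) : ℂ) := by
      rw [← Complex.ofReal_sub, ← Complex.ofReal_inv, ← Complex.ofReal_mul]
      congr 1
      rw [inv_mul_eq_div, div_eq_iff hd.ne']
      linarith
    rwa [e] at h
  obtain ⟨_, k1, k2, k3, hnr, hre⟩ := lemB hLIN T hRT h8T (-1) 0 1 (by norm_num) (by norm_num)
    t1 t2 t3
  obtain ⟨a1, a2, ha12, hV1⟩ := Finset.card_eq_two.1 k1
  obtain ⟨a0, hV0⟩ := Finset.card_eq_one.1 k2
  obtain ⟨a3, a4, ha34, hV3⟩ := Finset.card_eq_two.1 k3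
  have g1 : a1 ∈ T ∧ a1.re = (-1 + 0) / 2 ∧ a1.im ≠ 0 := by
    rw [← Finset.mem_filter (p := fun s : ℂ => s.re = (-1 + 0) / 2 ∧ s.im ≠ 0), hV1]
    simp
  have g2 : a2 ∈ T ∧ a2.re = (-1 + 0) / 2 ∧ a2.im ≠ 0 := by
    rw [← Finset.mem_filter (p := fun s : ℂ => s.re = (-1 + 0) / 2 ∧ s.im ≠ 0), hV1]
    simp
  have g0 : a0 ∈ T ∧ a0.re = (-1 + 1) / 2 ∧ a0.im ≠ 0 := by
    rw [← Finset.mem_filter (p := fun s : ℂ => s.re = (-1 + 1) / 2 ∧ s.im ≠ 0), hV0]
    simp
  have g3 : a3 ∈ T ∧ a3.re = (0 + 1) / 2 ∧ a3.im ≠ 0 := by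
    rw [← Finset.mem_filter (p := fun s : ℂ => s.re = (0 + 1) / 2 ∧ s.im ≠ 0), hV3]
    simp
  have g4 : a4 ∈ T ∧ a4.re = (0 + 1) / 2 ∧ a4.im ≠ 0 := by
    rw [← Finset.mem_filter (p := fun s : ℂ => s.re = (0 + 1) / 2 ∧ s.im ≠ 0), hV3]
    simp
  have w1 : (⟨-1/2, a1.im⟩ : ℂ) = a1 := by
    apply Complex.ext
    · rw [g1.2.1]; norm_num
    · rfl
  have w2 : (⟨-1/2, a2.im⟩ : ℂ) = a2 := by
    apply Complex.ext
    · rw [g2.2.1]; norm_num
    · rfl
  have w0 : (⟨0, a0.im⟩ : ℂ) = a0 := by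
    apply Complex.ext
    · rw [g0.2.1]; norm_num
    · rfl
  have w3 : (⟨1/2, a3.im⟩ : ℂ) = a3 := by
    apply Complex.ext
    · rw [g3.2.1]; norm_num
    · rfl
  have w4 : (⟨1/2, a4.im⟩ : ℂ) = a4 := by
    apply Complex.ext
    · rw [g4.2.1]; norm_num
    · rfl
  have r1 : (⟨-1, 0⟩ : ℂ) = ((-1 : ℝ) : ℂ) := by apply Complex.ext <;> simp
  have r2 : (⟨0, 0⟩ : ℂ) = ((0 : ℝ) : ℂ) := by apply Complex.ext <;> simp
  have r3 : (⟨1, 0⟩ : ℂ) = ((1 : ℝ) : ℂ) := by apply Complex.ext <;> simp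
  refine ⟨T, a0.im, a1.im, a2.im, a3.im, a4.im, g0.2.2, g1.2.2, g2.2.2, g3.2.2, g4.2.2, ?_, ?_,
    hRT, ?_⟩
  · intro h
    apply ha12
    apply Complex.ext
    · rw [g1.2.1, g2.2.1]
    · exact h
  · intro h
    apply ha34
    apply Complex.ext
    · rw [g3.2.1, g4.2.1]
    · exact h
  · intro v
    rw [w0, w1, w2, w3, w4, r1, r2, r3]
    constructor
    · intro hv
      by_cases h0 : v.im = 0
      · rcases hre v hv h0 with h1 | h1 | h1
        · left
          apply Complex.ext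
          · rw [Complex.ofReal_re, h1]
          · rw [Complex.ofReal_im, h0]
        · right; left
          apply Complex.ext
          · rw [Complex.ofReal_re, h1]
          · rw [Complex.ofReal_im, h0]
        · right; right; left
          apply Complex.ext
          · rw [Complex.ofReal_re, h1]
          · rw [Complex.ofReal_im, h0]
      · rcases hnr v hv h0 with h1 | h1 | h1
        · have h2 : v ∈ ({a1, a2} : Finset ℂ) := by
            rw [← hV1, Finset.mem_filter]; exact ⟨hv, h1, h0⟩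
          simp only [Finset.mem_insert, Finset.mem_singleton] at h2
          tauto
        · have h2 : v ∈ ({a0} : Finset ℂ) := by
            rw [← hV0, Finset.mem_filter]; exact ⟨hv, h1, h0⟩
          simp only [Finset.mem_singleton] at h2
          tauto
        · have h2 : v ∈ ({a3, a4} : Finset ℂ) := by
            rw [← hV3, Finset.mem_filter]; exact ⟨hv, h1, h0⟩
          simp only [Finset.mem_insert, Finset.mem_singleton] at h2
          tauto
    · rintro (rfl | rfl | rfl | rfl | rfl | rfl | rfl | rfl)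
      · exact t1
      · exact t2
      · exact t3
      · exact g0.1
      · exact g1.1
      · exact g2.1
      · exact g3.1
      · exact g4.1

end Pool.Agent.Helper24.BR
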