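import Pool.Agent.Helper82.BR.St3

set_option autoImplicit false

namespace Pool.Agent.Helper24.BR

open Pool.Agent.Helper82.BR
open scoped ComplexConjugate

private theorem core (ρ b1 b3 : ℂ) (h4 : ρ ^ 4 = ρ ^ 2 - 1) (h3 : ρ ^ 3 = Complex.I)
    (hb1 : b1 * (1 + ρ) = ρ) (hb3 : b3 * (1 + ρ) = ρ ^ 3) :
    ∃ h : ℝ, (h = 1 + Real.sqrt 3 ∨ h = 1 - Real.sqrt 3) ∧
      (-(h : ℂ) * (1 + Complex.I)) ≠ 0 ∧
      (-(h : ℂ) * (1 + Complex.I)) * 0 + Complex.I * h = h * Complex.I ∧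
      (-(h : ℂ) * (1 + Complex.I)) * 1 + Complex.I * h = -h ∧
      (-(h : ℂ) * (1 + Complex.I)) * ρ + Complex.I * h = -1 - Complex.I ∧
      (-(h : ℂ) * (1 + Complex.I)) * ρ ^ 2 + Complex.I * h = 1 - Complex.I ∧
      (-(h : ℂ) * (1 + Complex.I)) * ρ ^ 3 + Complex.I * h = h ∧
      (-(h : ℂ) * (1 + Complex.I)) * b1 + Complex.I * h = -1 + Complex.I ∧
      (-(h : ℂ) * (1 + Complex.I)) * (1 + ρ ^ 3) + Complex.I * h = -(h * Complex.I) ∧
      (-(h : ℂ) * (1 + Complex.I)) * b3 + Complex.I * h = 1 + Complex.I := by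
  have hI : Complex.I ^ 2 = -1 := Complex.I_sq
  have e2 : ρ ^ 2 = Complex.I * ρ + 1 := by
    linear_combination (-1 : ℂ) * h4 + ρ * h3
  have hre := congrArg Complex.re e2
  have him := congrArg Complex.im e2
  simp [pow_two] at hre him
  obtain ⟨x, hx⟩ : ∃ x, x = ρ.re := ⟨_, rfl⟩
  obtain ⟨y, hy⟩ : ∃ y, y = ρ.im := ⟨_, rfl⟩
  rw [← hx, ← hy] at hre him
  have hx0 : x ≠ 0 := by
    intro h0
    rw [h0] at hre
    nlinarith [sq_nonneg (y - 1 / 2)]
  have hy2 : y = 1 / 2 := by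
    have : x * (2 * y - 1) = 0 := by linarith
    rcases mul_eq_zero.1 this with h | h
    · exact absurd h hx0
    · linarith
  have hx2 : (2 * x) ^ 2 = 3 := by
    rw [hy2] at hre
    nlinarith
  have hs : (2 * x) ^ 2 = (Real.sqrt 3) ^ 2 := by
    rw [Real.sq_sqrt (by norm_num), hx2]
  have hcase := sq_eq_sq_iff_eq_or_eq_neg.1 hs
  refine ⟨2 * x + 1, ?_, ?_⟩
  · rcases hcase with h | h
    · left
      linarith
    · right
      linarith
  obtain ⟨H, hH⟩ : ∃ H : ℂ, H = ((2 * x + 1 : ℝ) : ℂ) := ⟨_, rfl⟩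
  rw [← hH]
  have hρ : ρ = (H - 1 + Complex.I) / 2 := by
    apply Complex.ext
    · rw [hH]
      simp [← hx]
    · rw [hH]
      simp [← hy, hy2]
  have hHH : H ^ 2 = 2 * H + 2 := by
    rw [hH]
    have : ((2 * x + 1 : ℝ)) ^ 2 = 2 * (2 * x + 1) + 2 := by nlinarith
    exact_mod_cast this
  have hH0 : H ≠ 0 := by
    intro h
    rw [h] at hHH
    norm_num at hHH
  have hI1 : (1 + Complex.I) ≠ 0 := by
    intro h
    have := congrArg Complex.re h
    simp at this
  have h1ρ : 1 + ρ ≠ 0 := by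
    intro h
    rw [h, mul_zero] at hb1
    rw [← hb1] at h
    norm_num at h
  have f1 : (-H * (1 + Complex.I)) * ρ + Complex.I * H = -1 - Complex.I := by
    rw [hρ]
    linear_combination (-H / 2) * hI + (-(1 + Complex.I) / 2) * hHH
  refine ⟨mul_ne_zero (neg_ne_zero.2 hH0) hI1, by ring, by ring, f1, ?_, ?_, ?_, ?_, ?_⟩
  · linear_combination (-H * (1 + Complex.I)) * e2 + Complex.I * f1 - (H + 1) * hI
  · rw [h3]
    linear_combination (-H) * hI
  · apply mul_right_cancel₀ h1ρ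
    linear_combination (-H * (1 + Complex.I)) * hb1 + (-H + 1 - Complex.I) * hρ - (1 / 2) * hHH -
      (1 / 2) * hI
  · rw [h3]
    linear_combination (-H) * hI
  · apply mul_right_cancel₀ h1ρ
    linear_combination (-H * (1 + Complex.I)) * hb3 - H * (1 + Complex.I) * h3 +
      (Complex.I * H - 1 - Complex.I) * hρ + (Complex.I / 2) * hHH + (-H / 2 - 1 / 2) * hI

theorem hSHP : StSHP := by
  classical
  intro S ρ b1 b3 h4 hn hb1 hb3 hS
  have hSe : S = {0, 1, ρ, ρ ^ 2, ρ ^ 3, b1, 1 + ρ ^ 3, b3} := by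
    ext z
    rw [hS z]
    simp only [Finset.mem_insert, Finset.mem_singleton]
  have h6 : (ρ ^ 3 - Complex.I) * (ρ ^ 3 + Complex.I) = 0 := by
    linear_combination (ρ ^ 2 + 1) * h4 - Complex.I_sq
  rcases mul_eq_zero.1 h6 with h | h
  · have h3 : ρ ^ 3 = Complex.I := by linear_combination h
    obtain ⟨t, ht, hne, g0, g1, g2, g3, g4, g5, g6, g7⟩ := core ρ b1 b3 h4 h3 hb1 hb3
    refine ⟨_, Complex.I * t, hne, t, ht, Or.inl ?_⟩
    rw [hSe]
    simp only [Finset.image_insert, Finset.image_singleton]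
    rw [g0, g1, g2, g3, g4, g5, g6, g7]
    ext z
    simp only [KC, Finset.mem_insert, Finset.mem_singleton]
    tauto
  · have h3 : (conj ρ) ^ 3 = Complex.I := by
      have : ρ ^ 3 = -Complex.I := by linear_combination h
      rw [← map_pow, this]
      simp
    have h4' : (conj ρ) ^ 4 = (conj ρ) ^ 2 - 1 := by
      rw [← map_pow, h4]
      simp
    have hb1' : conj b1 * (1 + conj ρ) = conj ρ := by
      have := congrArg conj hb1
      simpa using this
    have hb3' : conj b3 * (1 + conj ρ) = (conj ρ) ^ 3 := by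
      have := congrArg conj hb3
      simpa using this
    obtain ⟨t, ht, hne, g0, g1, g2, g3, g4, g5, g6, g7⟩ :=
      core (conj ρ) (conj b1) (conj b3) h4' h3 hb1' hb3'
    refine ⟨_, Complex.I * t, hne, t, ht, Or.inr ?_⟩
    rw [hSe]
    simp only [Finset.image_insert, Finset.image_singleton, map_zero, map_one, map_pow, map_add]
    rw [g0, g1, g2, g3, g4, g5, g6, g7]
    ext z
    simp only [KC, Finset.mem_insert, Finset.mem_singleton]
    tauto

end Pool.Agent.Helper24.BR
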