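import Pool.Agent.Helper82.BR.St

set_option autoImplicit false

namespace Pool.Agent.Helper24.BR

open Pool.Agent.Helper82.BR

theorem hSIM : StSIM := by
  classical
  intro S a c ha hS
  have hinj : Function.Injective (fun z : ℂ => a * (z - c)) := by
    intro x y h
    have h1 : x - c = y - c := mul_left_cancel₀ ha h
    linear_combination h1
  have hd : ∀ x y : ℂ, dist (a * (x - c)) (a * (y - c)) = ‖a‖ * dist x y := by
    intro x y
    rw [dist_eq_norm, dist_eq_norm, ← norm_mul]
    congr 1
    ring
  have ha' : ‖a‖ ≠ 0 := norm_ne_zero_iff.mpr ha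
  intro p hp q hq hpq
  rw [Finset.mem_image] at hp hq
  obtain ⟨p', hp', rfl⟩ := hp
  obtain ⟨q', hq', rfl⟩ := hq
  have hne : p' ≠ q' := fun h => hpq (by rw [h])
  have h := hS p' hp' q' hq' hne
  rw [Finset.filter_image, Finset.card_image_of_injective _ hinj]
  refine h.trans (le_of_eq ?_)
  congr 1
  apply Finset.filter_congr
  intro s _
  simp only [hd]
  constructor
  · intro h1
    rw [h1]
  · intro h1
    exact mul_left_cancel₀ ha' h1

end Pool.Agent.Helper24.BR
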